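import Pool.Agent.H954Z.FT.St
import Pool.Agent.H954Z.FT.Lattice

/-! # The multiplicity of the maximal ideal of a power series ring on a module is at most the rank -/

set_option autoImplicit false

namespace Pool.Agent.H473Z.FT

open Pool.Agent.H954Z.FT Filter Topology IsLocalRing

section gen

variable {A : Type} [CommRing A]

lemma len_span (K : Ideal A) {M : Type} [AddCommGroup M] [Module A M] {s : ℕ} (t : Fin s → M)
    (hK : ∀ i, ∀ a ∈ K, a • t i = 0) :
    Module.length A (Submodule.span A (Set.range t)) ≤ s * Module.length A (A ⧸ K) := by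
  let f : Fin s → (A ⧸ K →ₗ[A] M) := fun i =>
    Submodule.liftQ K (LinearMap.toSpanSingleton A M (t i)) fun a ha => hK i a ha
  let g : (Fin s → A ⧸ K) →ₗ[A] M := ∑ i, (f i).comp (LinearMap.proj i)
  have h1 : Submodule.span A (Set.range t) ≤ LinearMap.range g := by
    rw [Submodule.span_le]
    rintro _ ⟨i, rfl⟩
    refine ⟨Pi.single i (Submodule.Quotient.mk 1), ?_⟩
    simp only [g, LinearMap.coe_sum, Finset.sum_apply, LinearMap.comp_apply, LinearMap.proj_apply]
    rw [Finset.sum_eq_single i]
    · rw [Pi.single_eq_same]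
      exact one_smul A (t i)
    · intro j _ hj
      rw [Pi.single_eq_of_ne hj, map_zero]
    · simp
  have h2 := Module.length_le_of_injective (Submodule.inclusion h1) (Submodule.inclusion_injective h1)
  have h3 := Module.length_le_of_surjective g.rangeRestrict g.surjective_rangeRestrict
  refine (h2.trans h3).trans (le_of_eq ?_)
  rw [Module.length_pi_of_fintype]
  simp

lemma exists_data [IsDomain A] (N : Type) [AddCommGroup N] [Module A N] [Module.Finite A N] :
    ∃ (v : Fin (Module.finrank A N) → N) (s : ℕ) (g : Fin s → N) (c : A), c ≠ 0 ∧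
      Submodule.span A (Set.range g) = ⊤ ∧ ∀ i, c • g i ∈ Submodule.span A (Set.range v) := by
  obtain ⟨v, hv⟩ := exists_linearIndependent_of_le_finrank (R := A) (M := N) le_rfl
  obtain ⟨s, g, hg⟩ := Module.Finite.exists_fin (R := A) (M := N)
  have h : ∀ x : N, ∃ a : A, a ≠ 0 ∧ a • x ∈ Submodule.span A (Set.range v) := by
    intro x
    by_contra hc
    push Not at hc
    have h1 := LinearIndependent.finCons' x v hv fun c y hy h0 => by
      by_contra hc0
      refine hc c hc0 ?_
      rw [eq_neg_of_add_eq_zero_left h0]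
      exact Submodule.neg_mem _ hy
    have h2 := h1.fintype_card_le_finrank
    simp at h2
  choose a ha0 ha using h
  refine ⟨v, s, g, ∏ i, a (g i), Finset.prod_ne_zero_iff.2 fun i _ => ha0 _, hg, fun i => ?_⟩
  classical
  rw [← Finset.prod_erase_mul _ _ (Finset.mem_univ i), mul_smul]
  exact Submodule.smul_mem _ _ (ha _)

lemma len_le (J : Ideal A) {N : Type} [AddCommGroup N] [Module A N] {r s : ℕ} (v : Fin r → N)
    (g : Fin s → N) (c : A) (hg : Submodule.span A (Set.range g) = ⊤)
    (hc : ∀ i, c • g i ∈ Submodule.span A (Set.range v)) :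
    Module.length A (N ⧸ (J • ⊤ : Submodule A N)) ≤
      r * Module.length A (A ⧸ J) + s * Module.length A (A ⧸ (J ⊔ Ideal.span {c})) := by
  let π := (J • ⊤ : Submodule A N).mkQ
  let U : Submodule A (N ⧸ (J • ⊤ : Submodule A N)) := Submodule.span A (Set.range fun i => π (v i))
  have hJ : ∀ x : N, ∀ a ∈ J, a • π x = 0 := fun x a ha => by
    rw [← map_smul]
    exact (Submodule.Quotient.mk_eq_zero _).2 (Submodule.smul_mem_smul ha trivial)
  rw [Module.length_eq_add_of_exact U.subtype U.mkQ (Submodule.subtype_injective _)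
    (Submodule.mkQ_surjective _) (LinearMap.exact_subtype_mkQ U)]
  refine add_le_add (len_span J _ fun i => hJ _) ?_
  have h1 := len_span (J ⊔ Ideal.span {c}) (fun i => U.mkQ (π (g i))) (fun i a ha => by
    obtain ⟨a1, h1, a2, h2, rfl⟩ := Submodule.mem_sup.1 ha
    obtain ⟨b, rfl⟩ := Ideal.mem_span_singleton'.1 h2
    rw [add_smul, ← map_smul, hJ _ _ h1, map_zero, zero_add, mul_smul, ← map_smul U.mkQ c,
      ← map_smul π c]
    have h3 : π (c • g i) ∈ U := by
      have h4 := Submodule.mem_map_of_mem (f := π) (hc i)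
      rwa [Submodule.map_span, ← Set.range_comp] at h4
    have h4 : U.mkQ (π (c • g i)) = 0 := (Submodule.Quotient.mk_eq_zero _).2 h3
    rw [h4, smul_zero])
  have h2 : Submodule.span A (Set.range fun i => U.mkQ (π (g i))) = ⊤ := by
    have h3 : (Set.range fun i => U.mkQ (π (g i))) = (U.mkQ.comp π) '' Set.range g := by
      rw [← Set.range_comp]; rfl
    rw [h3, ← Submodule.map_span, hg, Submodule.map_top, LinearMap.range_eq_top]
    exact (Submodule.mkQ_surjective _).comp (Submodule.mkQ_surjective _)
  rwa [h2, Module.length_top] at h1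

lemma len_colon (J J' : Ideal A) (c : A) (h : ∀ a, c * a ∈ J' ↔ a ∈ J) :
    Module.length A (A ⧸ J') =
      Module.length A (A ⧸ J) + Module.length A (A ⧸ (J' ⊔ Ideal.span {c})) := by
  let f : (A ⧸ J) →ₗ[A] (A ⧸ J') := Submodule.mapQ J J' (LinearMap.mul A A c) fun a ha => (h a).2 ha
  let g : (A ⧸ J') →ₗ[A] (A ⧸ (J' ⊔ Ideal.span {c})) :=
    Submodule.mapQ J' (J' ⊔ Ideal.span {c}) LinearMap.id fun a ha => Submodule.mem_sup_left ha
  refine Module.length_eq_add_of_exact f g ?_ ?_ ?_
  · rw [injective_iff_map_eq_zero]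
    intro x hx
    obtain ⟨a, rfl⟩ := Submodule.Quotient.mk_surjective _ x
    exact (Submodule.Quotient.mk_eq_zero _).2 ((h a).1 ((Submodule.Quotient.mk_eq_zero _).1 hx))
  · intro x
    obtain ⟨a, rfl⟩ := Submodule.Quotient.mk_surjective _ x
    exact ⟨Submodule.Quotient.mk a, rfl⟩
  · intro x
    obtain ⟨a, rfl⟩ := Submodule.Quotient.mk_surjective _ x
    constructor
    · intro hx
      obtain ⟨a1, h1, a2, h2, rfl⟩ := Submodule.mem_sup.1 ((Submodule.Quotient.mk_eq_zero _).1 hx)
      obtain ⟨b, rfl⟩ := Ideal.mem_span_singleton'.1 h2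
      refine ⟨Submodule.Quotient.mk b, (Submodule.Quotient.eq _).2 ?_⟩
      have : c * b - (a1 + b * c) = -a1 := by ring
      show c * b - (a1 + b * c) ∈ J'
      rw [this]
      exact J'.neg_mem h1
    · rintro ⟨y, hy⟩
      obtain ⟨b, rfl⟩ := Submodule.Quotient.mk_surjective _ y
      rw [← hy]
      exact (Submodule.Quotient.mk_eq_zero _).2
        (Submodule.mem_sup_right (Ideal.mem_span_singleton'.2 ⟨b, mul_comm _ _⟩))

end gen

section ps

variable {d : ℕ} {k : Type} [Field k]

open MvPowerSeries

lemma order_X (i : Fin d) : (X i : PS d k).order = 1 := by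
  rw [X, order_monomial_of_ne_zero one_ne_zero]
  simp

lemma X_mem (i : Fin d) : (X i : PS d k) ∈ box d k 1 :=
  Ideal.subset_span ⟨i, pow_one _⟩

lemma mem_pow (n : ℕ) : ∀ f : PS d k, f ∈ box d k 1 ^ n ↔ (n : ℕ∞) ≤ f.order := by
  classical
  induction n with
  | zero => simp
  | succ n ih =>
    intro f
    constructor
    · intro hf
      rw [pow_succ] at hf
      refine Submodule.mul_induction_on hf (fun a ha b hb => ?_) fun a b ha hb => ?_
      · rw [order_mul, Nat.cast_add, Nat.cast_one]
        refine add_le_add ((ih a).1 ha) ?_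
        refine Submodule.span_induction (p := fun b _ => 1 ≤ b.order) ?_ ?_ ?_ ?_ hb
        · rintro _ ⟨i, rfl⟩
          simp only [pow_one, order_X, le_refl]
        · simp
        · intro x y _ _ hx hy
          exact (le_min hx hy).trans min_order_le_add
        · intro a x _ hx
          rw [smul_eq_mul, order_mul]
          exact hx.trans le_add_self
      · exact (le_min ha hb).trans min_order_le_add
    · intro hf
      have hex : ∀ m : Fin d →₀ ℕ, m ≠ 0 → ∃ i, m i ≠ 0 := fun m hm => by
        by_contra h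
        push Not at h
        exact hm (Finsupp.ext h)
      choose ix hix using hex
      let g : Fin d → PS d k := fun i m =>
        if h : m ≠ 0 then (if ix m h = i then coeff m f else 0) else 0
      have hg : ∀ i m, coeff m (g i) =
        if h : m ≠ 0 then (if ix m h = i then coeff m f else 0) else 0 := fun _ _ => rfl
      have h0 : ∀ m : Fin d →₀ ℕ, m.degree < n + 1 → coeff m f = 0 := fun m hm =>
        coeff_of_lt_order (lt_of_lt_of_le (by exact_mod_cast hm) hf)
      have hf' : f = ∑ i, g i := by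
        ext m
        rw [map_sum]
        simp only [hg]
        by_cases hm : m = 0
        · subst hm
          rw [h0 0 (by simp)]
          simp
        · simp [hm]
      rw [hf']
      refine Ideal.sum_mem _ fun i _ => ?_
      obtain ⟨u, hu⟩ : (X i : PS d k) ∣ g i := by
        rw [X_dvd_iff]
        intro m hm
        rw [hg]
        split_ifs with h1 h2
        · exact absurd hm (h2 ▸ hix m h1)
        · rfl
        · rfl
      have h1 : ((n + 1 : ℕ) : ℕ∞) ≤ (g i).order := nat_le_order fun m hm => by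
        rw [hg, h0 m hm]
        simp
      rw [hu, order_mul, order_X, Nat.cast_add, Nat.cast_one, add_comm] at h1
      have h2 := (ENat.add_le_add_iff_left (by simp)).1 h1
      rw [hu, pow_succ']
      exact Ideal.mul_mem_mul (X_mem i) ((ih u).2 h2)

theorem res_surj : Function.Surjective (algebraMap k (ResidueField (PS d k))) := by
  intro z
  obtain ⟨f, rfl⟩ := residue_surjective z
  refine ⟨constantCoeff f, ?_⟩
  change residue _ (C (constantCoeff f)) = _
  refine Ideal.Quotient.eq.2 ?_
  rw [mem_maximalIdeal, mem_nonunits_iff, isUnit_iff_constantCoeff]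
  simp

theorem length_eq (J : Ideal (PS d k)) :
    Module.length k (PS d k ⧸ J) = Module.length (PS d k) (PS d k ⧸ J) := by
  have h1 : Module.length (ResidueField k) (ResidueField (PS d k)) = 1 := by
    rw [Module.length_eq_of_surjective (R := ResidueField (PS d k)), Module.length_eq_one]
    intro z
    obtain ⟨c, rfl⟩ := res_surj z
    exact ⟨residue k c, rfl⟩
  rw [IsLocalRing.length_restrictScalars k (PS d k), h1, mul_one]

/-- the number of exponents of degree `< n` -/
noncomputable def hh (d n : ℕ) : ℕ := (simp d (fun _ => 1) n).ncard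

lemma length_pow (n : ℕ) : Module.length (PS d k) (PS d k ⧸ box d k 1 ^ n) = hh d n := by
  classical
  rw [← length_eq]
  let T : Set (Fin d → ℕ) := simp d (fun _ => 1) n
  have hT : T.Finite := simp_finite d _ (fun _ => one_pos) _
  have hmem : ∀ m : Fin d →₀ ℕ, (m : Fin d → ℕ) ∈ T ↔ m.degree < n := fun m => by
    rw [Finsupp.degree_eq_sum]
    show ∑ i, (1 : ℝ) * (m i : ℝ) < n ↔ _
    simp only [one_mul]
    exact_mod_cast Iff.rfl
  have := hT.fintype
  let φ : PS d k →ₗ[k] (T → k) :=
    LinearMap.pi fun t => coeff (Finsupp.equivFunOnFinite.symm t.1)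
  have h1 : Function.Surjective φ := by
    intro y
    refine ⟨fun m => if h : (m : Fin d → ℕ) ∈ T then y ⟨m, h⟩ else 0, ?_⟩
    funext t
    exact dif_pos t.2
  have h2 : LinearMap.ker φ = (box d k 1 ^ n).restrictScalars k := by
    ext f
    rw [Submodule.restrictScalars_mem, mem_pow, LinearMap.mem_ker]
    constructor
    · intro h
      refine nat_le_order fun m hm => ?_
      have := congrFun h ⟨m, (hmem m).2 hm⟩
      simpa [φ] using this
    · intro h
      funext t
      refine coeff_of_lt_order (lt_of_lt_of_le ?_ h)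
      exact_mod_cast (hmem _).1 t.2
  have e1 := (φ.quotKerEquivOfSurjective h1).length_eq
  have e2 := (Submodule.Quotient.restrictScalarsEquiv k (box d k 1 ^ n)).length_eq
  rw [h2] at e1
  rw [← e2, e1, Module.length_pi_of_fintype]
  simp only [Module.length_eq_one, Finset.sum_const, Finset.card_univ, nsmul_eq_mul, mul_one]
  rw [hh, ← Set.fintypeCard_eq_ncard]

lemma length_tors (c : PS d k) (hc : c ≠ 0) (m : ℕ) :
    (hh d (m + c.order.toNat) : ℕ∞) = hh d m +
      Module.length (PS d k) (PS d k ⧸ (box d k 1 ^ (m + c.order.toNat) ⊔ Ideal.span {c})) := by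
  rw [← length_pow (k := k), ← length_pow (k := k)]
  refine len_colon _ _ c fun a => ?_
  have h1 := ne_zero_iff_order_finite.1 hc
  rw [mem_pow, mem_pow, order_mul, ← h1, ENat.toNat_natCast, Nat.cast_add, add_comm]
  exact ENat.add_le_add_iff_left (by simp)

end ps

lemma asym (d r s e : ℕ) (ε : ℝ) (hε : 0 < ε) : ∀ᶠ n : ℕ in atTop,
    r * ((n : ℝ) + d) ^ d + s * (((n : ℝ) + d) ^ d - ((n : ℝ) - e) ^ d) ≤ (r + ε) * (n : ℝ) ^ d := by
  have h0 : Tendsto (fun n : ℕ => ((n : ℝ))⁻¹) atTop (𝓝 0) :=
    tendsto_inv_atTop_zero.comp tendsto_natCast_atTop_atTop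
  have hc : Continuous fun x : ℝ =>
      r * (1 + d * x) ^ d + s * ((1 + d * x) ^ d - (1 - e * x) ^ d) := by fun_prop
  have h1 := (hc.tendsto 0).comp h0
  have h2 := h1.eventually (gt_mem_nhds (a := (r : ℝ) + ε) (by simpa using hε))
  filter_upwards [h2, eventually_gt_atTop 0] with n hn hn0
  have hn' : (0 : ℝ) < n := by exact_mod_cast hn0
  have h3 := mul_le_mul_of_nonneg_right hn.le (pow_nonneg hn'.le d)
  refine le_trans (le_of_eq ?_) h3
  have e1 : (n : ℝ) + d = (1 + d * (n : ℝ)⁻¹) * n := by field_simp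
  have e2 : (n : ℝ) - e = (1 - e * (n : ℝ)⁻¹) * n := by field_simp
  rw [e1, e2, mul_pow, mul_pow]
  simp only [Function.comp]
  ring

theorem thm_upper : S_upper := by
  intro k _ d hd N _ _ _ ε hε
  have : IsDomain (PS d k) := NoZeroDivisors.to_isDomain _
  obtain ⟨v, s, g, c, hc0, hg, hc⟩ := exists_data (A := PS d k) N
  generalize Module.finrank (PS d k) N = r at v hc ⊢
  set e := c.order.toNat
  filter_upwards [asym d r s e ε hε, eventually_gt_atTop e] with n hn hne
  obtain ⟨m, rfl⟩ : ∃ m, n = m + e := ⟨n - e, by omega⟩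
  have h1 := len_le (box d k 1 ^ (m + e)) v g c hg hc
  have h2 := length_tors c hc0 m
  rw [length_pow] at h1
  obtain ⟨t, ht⟩ : ∃ t : ℕ, Module.length (PS d k)
      (PS d k ⧸ (box d k 1 ^ (m + e) ⊔ Ideal.span {c})) = t := by
    refine (ENat.ne_top_iff_exists.1 fun h => ?_).imp fun t ht => ht.symm
    rw [h, add_top] at h2
    exact ENat.natCast_ne_top _ h2
  rw [ht] at h1 h2
  have h3 : hh d (m + e) = hh d m + t := by exact_mod_cast h2
  refine ⟨r * hh d (m + e) + s * t, by exact_mod_cast h1, le_trans ?_ hn⟩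
  have h4 := simp_upper d (fun _ => 1) (fun _ => one_pos) ((m + e : ℕ) : ℝ) (by positivity)
  have h5 := simp_lower d (fun _ => 1) (fun _ => one_pos) (m : ℝ) (by
    exact_mod_cast (by omega : 0 < m))
  simp only [Finset.prod_const_one, mul_one, Finset.sum_const, Finset.card_univ, Fintype.card_fin,
    nsmul_eq_mul] at h4 h5
  have h6 : ((m + e : ℕ) : ℝ) - e = m := by push_cast; ring
  have h7 : (hh d (m + e) : ℝ) = hh d m + t := by exact_mod_cast h3
  rw [h6]
  change (d.factorial : ℝ) * hh d (m + e) ≤ _ at h4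
  change _ ≤ (d.factorial : ℝ) * hh d m at h5
  have h8 : (d.factorial : ℝ) * t ≤ (((m + e : ℕ) : ℝ) + d) ^ d - (m : ℝ) ^ d := by
    rw [h7] at h4
    linarith
  have h9 := mul_le_mul_of_nonneg_left h4 (Nat.cast_nonneg (α := ℝ) r)
  have h10 := mul_le_mul_of_nonneg_left h8 (Nat.cast_nonneg (α := ℝ) s)
  rw [Nat.cast_add (r * _), Nat.cast_mul, Nat.cast_mul]
  linarith

end Pool.Agent.H473Z.FT
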